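import Pool.Agent.Helper90.TS.Stmts

set_option autoImplicit false

/-!
# EXTS: nonforking extensions of types of countable sets
-/

namespace Pool.Agent.Helper90.TS

section

variable {V G : Type} [Group G] [MulAction G V]

theorem exts_ini_succ (d : ℕ → V) (n : ℕ) : ini d (n + 1) = ini d n ∪ {d n} := by
  ext x
  constructor
  · rintro ⟨i, hi, rfl⟩
    rcases Nat.lt_succ_iff_lt_or_eq.1 hi with h | h
    · exact Or.inl ⟨i, h, rfl⟩
    · rw [h]
      exact Or.inr rfl
  · rintro (⟨i, hi, rfl⟩ | h)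
    · exact ⟨i, by omega, rfl⟩
    · rw [Set.mem_singleton_iff] at h
      exact ⟨n, by omega, h.symm⟩

theorem exts_empty (hext : ST_EXT) (X : Ctx V G) (A C : Set V) (hA : A.Countable)
    (hC : C.Countable) : SI X A ∅ C := by
  intro n b hb
  obtain ⟨b', h1, h2⟩ := hext V G X A (A ∪ C) (hA.union hC) Set.subset_union_left (Fin n) b
  have h3 : b' = b := by
    funext i
    exact absurd (hb ⟨i, rfl⟩) (Set.notMem_empty _)
  rwa [h3] at h2

theorem exts_finite_ini (d : ℕ → V) {n : ℕ} (b : Fin n → V) (hb : Set.range b ⊆ Set.range d) :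
    ∃ N, Set.range b ⊆ ini d N := by
  choose f hf using fun i => hb ⟨i, rfl⟩
  refine ⟨(Finset.univ.sup f) + 1, ?_⟩
  rintro _ ⟨i, rfl⟩
  refine ⟨f i, ?_, hf i⟩
  exact Nat.lt_succ_of_le (Finset.le_sup (f := f) (Finset.mem_univ i))

end

theorem st_EXTS (hcalc : ST_CALC) (hext : ST_EXT) (htyps : ST_TYPS) (hrkb : ST_RKB) :
    ST_EXTS := by
  intro V G _ _ X A B C hA hB hC
  rcases B.eq_empty_or_nonempty with hBe | hBn
  · refine ⟨1, one_mem _, ?_⟩
    have h1 : tr (1 : G) B = ∅ := by
      rw [hBe]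
      exact Set.image_empty _
    rw [h1]
    exact exts_empty hext X A C hA hC
  obtain ⟨d, hd⟩ := hB.exists_eq_range hBn
  let P : ℕ → G → Prop := fun n h => h ∈ Fx G A ∧ SI X A (ini (fun i => h • d i) n) C
  have hP0 : P 0 1 := by
    refine ⟨one_mem _, ?_⟩
    have h1 : ini (fun i => (1 : G) • d i) 0 = ∅ := by
      ext x
      constructor
      · rintro ⟨i, hi, -⟩
        exact absurd hi (Nat.not_lt_zero _)
      · intro h
        exact absurd h (Set.notMem_empty _)
    rw [h1]
    exact exts_empty hext X A C hA hC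
  have hstep : ∀ n h, P n h → ∃ h', P (n + 1) h' ∧ ∀ i < n, h' • d i = h • d i := by
    rintro n h ⟨hh, hSI⟩
    have hBc : (A ∪ ini (fun i => h • d i) n).Countable :=
      hA.union (ini_finite _ _).countable
    obtain ⟨x', hx1, hx2⟩ := hext V G X (A ∪ ini (fun i => h • d i) n)
      ((A ∪ ini (fun i => h • d i) n) ∪ C) (hBc.union hC) Set.subset_union_left (Fin 1)
      (fun _ => h • d n)
    have hx3 : X.rk (A ∪ ini (fun i => h • d i) n) x' =
        X.rk (A ∪ ini (fun i => h • d i) n) (fun _ : Fin 1 => h • d n) :=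
      (hrkb V G X (Fin 1) (fun _ => h • d n)).2.2.2.2.2 _ x' hx1
    obtain ⟨k, hk, hkx⟩ := hx1
    obtain ⟨hk1, hk2⟩ := fx_union.1 hk
    have hlow : ∀ i < n, (k * h) • d i = h • d i := by
      intro i hi
      rw [mul_smul]
      exact hk2 _ ⟨i, hi, rfl⟩
    refine ⟨k * h, ⟨mul_mem hk1 hh, ?_⟩, hlow⟩
    have e1 : ini (fun i => (k * h) • d i) (n + 1) =
        ini (fun i => h • d i) n ∪ Set.range x' := by
      rw [exts_ini_succ]
      congr 1
      · ext x
        constructor
        · rintro ⟨i, hi, rfl⟩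
          exact ⟨i, hi, (hlow i hi).symm⟩
        · rintro ⟨i, hi, rfl⟩
          exact ⟨i, hi, hlow i hi⟩
      · have h2 : x' = fun _ => (k * h) • d n := by
          rw [← hkx]
          funext i
          change k • h • d n = (k * h) • d n
          rw [mul_smul]
        rw [h2, Set.range_const]
    rw [e1]
    have s1 : SI X (A ∪ ini (fun i => h • d i) n) (Set.range x') C := by
      refine ((hcalc V G X (A ∪ ini (fun i => h • d i) n) ∅ C ∅ hBc Set.countable_empty hC
        Set.countable_empty).2.2.2.2.1 (Fin 1) x').1 ?_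
      rw [hx2, hx3]
    exact ((hcalc V G X A (ini (fun i => h • d i) n) C (Set.range x') hA
      (ini_finite _ _).countable hC (Set.finite_range x').countable).2.2.1).2 ⟨hSI, s1⟩
  choose f hf1 hf2 using hstep
  let s : (n : ℕ) → {h : G // P n h} := fun n =>
    Nat.rec (motive := fun n => {h : G // P n h}) ⟨1, hP0⟩ (fun n h => ⟨f n h.1 h.2, hf1 n h.1 h.2⟩) n
  have hs : ∀ n, ∀ i < n, (s (n + 1)).1 • d i = (s n).1 • d i := fun n i hi =>
    hf2 n (s n).1 (s n).2 i hi
  set d' : ℕ → V := fun i => (s (i + 1)).1 • d i with hd'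
  have hcoh : ∀ n, ∀ i < n, (s n).1 • d i = d' i := by
    intro n i hi
    have h1 : i + 1 ≤ n := hi
    induction n, h1 using Nat.le_induction with
    | base => rfl
    | succ n hn ih =>
      rw [hs n i hn]
      exact ih hn
  have hty := htyps V G X A hA d d' (fun n => ⟨(s n).1, (s n).2.1, by
    funext i
    exact hcoh n i i.2⟩)
  obtain ⟨g, hg, hgd⟩ := hty
  refine ⟨g, hg, ?_⟩
  have htr : tr g B = Set.range d' := by
    rw [hd, tr_range]
    congr 1
    funext i
    exact hgd i
  rw [htr]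
  intro n b hb
  obtain ⟨N, hN⟩ := exts_finite_ini d' b hb
  have hini : ini (fun i => (s N).1 • d i) N = ini d' N := by
    ext x
    constructor
    · rintro ⟨i, hi, rfl⟩
      exact ⟨i, hi, (hcoh N i hi).symm⟩
    · rintro ⟨i, hi, rfl⟩
      exact ⟨i, hi, hcoh N i hi⟩
  have h2 := (s N).2.2
  rw [hini] at h2
  exact h2 n b hN

end Pool.Agent.Helper90.TS
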