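import Pool.Agent.Helper90.TS.Stmts

set_option autoImplicit false

/-!
# RDEG: decomposition into sets of degree one
-/

namespace Pool.Agent.Helper90.TS

section

variable {V G : Type} [Group G] [MulAction G V] {ι : Type}

theorem rdeg_inter (X : Ctx V G) [Finite ι] {D E : Set (ι → V)} (hD : D ∈ X.Df ι)
    (hE : E ∈ X.Df ι) : D ∩ E ∈ X.Df ι := by
  have h : D ∩ E = D \ (D \ E) := by
    ext x
    simp
  rw [h]
  exact X.diff ι D hD _ (X.diff ι D hD E hE)

/-- finite disjoint unions of sets of degree one -/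
def rdeg_Good (X : Ctx V G) (α : Ordinal.{0}) (D : Set (ι → V)) : Prop :=
  ∃ s : Finset (Set (ι → V)), (∀ S ∈ s, X.Dg1 α S) ∧ D = ⋃₀ (s : Set (Set (ι → V))) ∧
    ∀ S ∈ s, ∀ T ∈ s, S ≠ T → Disjoint S T

theorem rdeg_good_union (X : Ctx V G) (α : Ordinal.{0}) {D E : Set (ι → V)}
    (hD : rdeg_Good X α D) (hE : rdeg_Good X α E) (h : Disjoint D E) :
    rdeg_Good X α (D ∪ E) := by
  classical
  obtain ⟨s, hs1, hs2, hs3⟩ := hD
  obtain ⟨t, ht1, ht2, ht3⟩ := hE
  refine ⟨s ∪ t, ?_, ?_, ?_⟩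
  · intro S hS
    rcases Finset.mem_union.1 hS with h1 | h1
    · exact hs1 S h1
    · exact ht1 S h1
  · rw [Finset.coe_union, Set.sUnion_union, ← hs2, ← ht2]
  · have key : ∀ S ∈ s, ∀ T ∈ t, Disjoint S T := by
      intro S hS T hT
      refine h.mono ?_ ?_
      · rw [hs2]
        exact Set.subset_sUnion_of_mem (Finset.mem_coe.2 hS)
      · rw [ht2]
        exact Set.subset_sUnion_of_mem (Finset.mem_coe.2 hT)
    intro S hS T hT hne
    rcases Finset.mem_union.1 hS with h1 | h1 <;> rcases Finset.mem_union.1 hT with h2 | h2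
    · exact hs3 S h1 T h2 hne
    · exact key S h1 T h2
    · exact (key T h2 S h1).symm
    · exact ht3 S h1 T h2 hne

end

theorem st_RDEG (hbas : ST_RBAS) (hrun : ST_RUN) : ST_RDEG := by
  intro V G _ _ X ι _ α D hR hn
  obtain ⟨r1, r2, r3, -, -⟩ := hbas V G X ι
  obtain ⟨u1, u2⟩ := hrun V G X ι α
  have hdf : ∀ S : Set (ι → V), X.Rge α S → S ∈ X.Df ι := fun S hS => ((rge_iff X α _).1 hS).1
  have hDd : D ∈ X.Df ι := hdf D hR
  have hgood : rdeg_Good X α D := by
    by_contra hbad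
    have hstep : ∀ S : {S : Set (ι → V) // S ⊆ D ∧ X.Rge α S ∧ ¬ rdeg_Good X α S},
        ∃ T : {S : Set (ι → V) // S ⊆ D ∧ X.Rge α S ∧ ¬ rdeg_Good X α S},
          T.1 ⊆ S.1 ∧ X.Rge α (S.1 \ T.1) := by
      rintro ⟨S, hSD, hSR, hSb⟩
      have hnS : ¬ X.Rge (Order.succ α) S := fun h => hn (r1 _ _ _ hDd hSD h)
      have hnd : ¬ X.Dg1 α S := by
        intro h
        refine hSb ⟨{S}, ?_, ?_, ?_⟩
        · intro T hT
          rw [Finset.mem_singleton.1 hT]
          exact h
        · rw [Finset.coe_singleton, Set.sUnion_singleton]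
        · intro T hT T' hT' hne
          rw [Finset.mem_singleton.1 hT, Finset.mem_singleton.1 hT'] at hne
          exact absurd rfl hne
      have h1 : ∃ E F, E ⊆ S ∧ F ⊆ S ∧ Disjoint E F ∧ X.Rge α E ∧ X.Rge α F := by
        by_contra hcon
        apply hnd
        refine ⟨hSR, hnS, ?_⟩
        intro E F hE hF hEF hRE hRF
        exact hcon ⟨E, F, hE, hF, hEF, hRE, hRF⟩
      obtain ⟨E, F, hE, hF, hEF, hRE, hRF⟩ := h1
      have hSE : X.Rge α (S \ E) := by
        refine r1 _ _ _ (X.diff ι _ (hdf S hSR) _ (hdf E hRE)) ?_ hRF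
        intro x hx
        exact ⟨hF hx, fun hx' => (Set.disjoint_left.1 hEF) hx' hx⟩
      by_cases hgE : rdeg_Good X α E
      · have hbE : ¬ rdeg_Good X α (S \ E) := by
          intro hg
          apply hSb
          have h2 := rdeg_good_union X α hgE hg Set.disjoint_sdiff_right
          rwa [Set.union_sdiff_cancel hE] at h2
        refine ⟨⟨S \ E, Set.sdiff_subset.trans hSD, hSE, hbE⟩, Set.sdiff_subset, ?_⟩
        change X.Rge α (S \ (S \ E))
        have h2 : S \ (S \ E) = E := by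
          rw [sdiff_sdiff_right_self]
          exact Set.inter_eq_right.2 hE
        rw [h2]
        exact hRE
      · exact ⟨⟨E, hE.trans hSD, hRE, hgE⟩, hE, hSE⟩
    choose f hf1 hf2 using hstep
    let s : ℕ → {S : Set (ι → V) // S ⊆ D ∧ X.Rge α S ∧ ¬ rdeg_Good X α S} :=
      fun n => Nat.rec ⟨D, Set.Subset.rfl, hR, hbad⟩ (fun _ S => f S) n
    have hs : ∀ n, s (n + 1) = f (s n) := fun n => rfl
    have hanti : ∀ i j, i ≤ j → (s j).1 ⊆ (s i).1 := by
      intro i j hij
      induction j, hij using Nat.le_induction with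
      | base => exact Set.Subset.rfl
      | succ j hij ih =>
        rw [hs j]
        exact (hf1 (s j)).trans ih
    apply hn
    rw [rge_iff]
    refine ⟨hDd, ((rge_iff X α _).1 hR).2.1, ?_⟩
    intro β hβ
    have hβα : β ≤ α := Order.lt_succ_iff.1 hβ
    refine ⟨fun n => (s n).1 \ (s (n + 1)).1, ?_, ?_, ?_⟩
    · intro n x hx
      exact (s n).2.1 hx.1
    · have key : ∀ i j, i < j → Disjoint ((s i).1 \ (s (i + 1)).1) ((s j).1 \ (s (j + 1)).1) := by
        intro i j hij
        rw [Set.disjoint_left]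
        intro x hx hx'
        exact hx.2 (hanti (i + 1) j hij hx'.1)
      intro i j hij
      rcases lt_or_gt_of_ne hij with h | h
      · exact key i j h
      · exact (key j i h).symm
    · intro n
      refine r2 α β _ hβα ?_
      change X.Rge α ((s n).1 \ (s (n + 1)).1)
      rw [hs n]
      exact hf2 (s n)
  obtain ⟨s, hs1, hs2, hs3⟩ := hgood
  have hm : 0 < s.card := by
    rw [Finset.card_pos]
    obtain ⟨x, hx⟩ := ((rge_iff X α _).1 hR).2.1
    rw [hs2] at hx
    obtain ⟨S, hS, -⟩ := hx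
    exact ⟨S, Finset.mem_coe.1 hS⟩
  set F : Fin s.card → Set (ι → V) := fun i => ((s.equivFin.symm i : s) : Set (ι → V)) with hF
  have hFs : ∀ i, F i ∈ s := fun i => (s.equivFin.symm i).2
  have hFD : ∀ i, X.Dg1 α (F i) := fun i => hs1 _ (hFs i)
  have hFU : D = ⋃ i, F i := by
    rw [hs2]
    ext x
    constructor
    · rintro ⟨S, hS, hx⟩
      refine Set.mem_iUnion.2 ⟨s.equivFin ⟨S, Finset.mem_coe.1 hS⟩, ?_⟩
      rw [hF]
      change x ∈ ((s.equivFin.symm (s.equivFin ⟨S, Finset.mem_coe.1 hS⟩) : s) : Set (ι → V))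
      rw [Equiv.symm_apply_apply]
      exact hx
    · intro hx
      obtain ⟨i, hi⟩ := Set.mem_iUnion.1 hx
      exact ⟨F i, Finset.mem_coe.2 (hFs i), hi⟩
  refine ⟨s.card, F, hm, hFD, hFU, ?_, ?_⟩
  · intro i j hij
    refine hs3 _ (hFs i) _ (hFs j) fun h => hij ?_
    exact s.equivFin.symm.injective (Subtype.ext h)
  · intro F' hF'D hF'd
    by_contra hcon
    push Not at hcon
    have h1 : ∀ j, ∃ i, X.Rge α (F' j ∩ F i) := by
      intro j
      refine u2 (Fin s.card) (fun i => F' j ∩ F i)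
        (fun i => rdeg_inter X (hdf _ (hcon j)) (hdf _ (hFD i).1)) ?_
      have h2 : (⋃ i, F' j ∩ F i) = F' j := by
        rw [← Set.inter_iUnion, ← hFU]
        exact Set.inter_eq_left.2 (hF'D j)
      rw [h2]
      exact hcon j
    choose f hf using h1
    obtain ⟨j, j', hne, heq⟩ := Fintype.exists_ne_map_eq_of_card_lt f (by simp)
    refine (hFD (f j)).2.2 (F' j ∩ F (f j)) (F' j' ∩ F (f j)) Set.inter_subset_right
      Set.inter_subset_right ?_ (hf j) ?_
    · exact (hF'd j j' hne).mono Set.inter_subset_left Set.inter_subset_left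
    · rw [heq]
      exact hf j'

end Pool.Agent.Helper90.TS
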