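import Pool.Agent.Helper90.TS.Stmts

set_option autoImplicit false

/-!
# STAT: types are stationary over finitely many algebraic elements
-/

namespace Pool.Agent.Helper90.TS

section

variable {V G : Type} [Group G] [MulAction G V] {ι : Type}

/-- symmetric difference -/
def stat_sd (S T : Set (ι → V)) : Set (ι → V) := (S \ T) ∪ (T \ S)

theorem stat_sd_comm (S T : Set (ι → V)) : stat_sd S T = stat_sd T S := Set.union_comm _ _

theorem stat_inter (X : Ctx V G) [Finite ι] {D E : Set (ι → V)} (hD : D ∈ X.Df ι)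
    (hE : E ∈ X.Df ι) : D ∩ E ∈ X.Df ι := by
  have h : D ∩ E = D \ (D \ E) := by
    ext x
    simp
  rw [h]
  exact X.diff ι D hD _ (X.diff ι D hD E hE)

theorem stat_sd_df (X : Ctx V G) [Finite ι] {D E : Set (ι → V)} (hD : D ∈ X.Df ι)
    (hE : E ∈ X.Df ι) : stat_sd D E ∈ X.Df ι :=
  X.union ι _ (X.diff ι D hD E hE) _ (X.diff ι E hE D hD)

theorem stat_rge_empty (X : Ctx V G) (α : Ordinal.{0}) : ¬ X.Rge α (∅ : Set (ι → V)) := by
  intro h
  rw [rge_iff] at h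
  exact Set.not_nonempty_empty h.2.1

/-- the translate of a set of tuples -/
def stat_g (g : G) (S : Set (ι → V)) : Set (ι → V) := {x | g⁻¹ • x ∈ S}

theorem stat_key (hbas : ST_RBAS) (hrun : ST_RUN) (hdef : ST_DEF) (X : Ctx V G) (A : Set V)
    [Finite ι] (α : Ordinal.{0}) (D0 : Set (ι → V)) (h0 : X.Ov A D0)
    (hn : ¬ X.Rge (Order.succ α) D0) (m : ℕ) (F : Fin m → Set (ι → V))
    (hF : ∀ i, X.Dg1 α (F i)) (hU : D0 = ⋃ i, F i) (i : Fin m) :
    ∃ (k : ℕ) (e : Fin k → V) (n : ℕ) (u : Fin n → V), Set.range e ⊆ acl G A ∧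
      X.Ov (Set.range u) (F i) ∧
      ∀ g ∈ Fx G A, g • e = e → ¬ X.Rge α (stat_g g (F i) \ F i) := by
  obtain ⟨r1, -, r3, -, -⟩ := hbas V G X ι
  obtain ⟨u1, u2⟩ := hrun V G X ι α
  have hFd : ∀ j, F j ∈ X.Df ι := fun j => ((rge_iff X α _).1 (hF j).1).1
  have hFD : ∀ j, F j ⊆ D0 := fun j => by rw [hU]; exact Set.subset_iUnion F j
  have gd : ∀ g : G, stat_g g (F i) ∈ X.Df ι := fun g => X.smul ι (F i) (hFd i) g⁻¹
  have gD : ∀ g ∈ Fx G A, stat_g g (F i) ⊆ D0 := by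
    intro g hg x hx
    have h1 := h0.2 g hg _ (hFD i hx)
    rwa [smul_inv_smul] at h1
  have gR : ∀ g : G, X.Rge α (stat_g g (F i)) := fun g => (r3 α (F i) g⁻¹).2 (hF i).1
  have stepa : ∀ g ∈ Fx G A, ∃ j, X.Rge α (stat_g g (F i) ∩ F j) := by
    intro g hg
    refine u2 (Fin m) (fun j => stat_g g (F i) ∩ F j)
      (fun j => stat_inter X (gd g) (hFd j)) ?_
    have h1 : (⋃ j, stat_g g (F i) ∩ F j) = stat_g g (F i) := by
      rw [← Set.inter_iUnion, ← hU]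
      exact Set.inter_eq_left.2 (gD g hg)
    rw [h1]
    exact gR g
  have stepb : ∀ (j : Fin m) (g : G), X.Rge α (stat_g g (F i) ∩ F j) →
      ¬ X.Rge α (stat_g g (F i) \ F j) ∧ ¬ X.Rge α (F j \ stat_g g (F i)) := by
    intro j g h
    constructor
    · intro h2
      refine (hF i).2.2 {x | g • x ∈ stat_g g (F i) ∩ F j} {x | g • x ∈ stat_g g (F i) \ F j}
        ?_ ?_ ?_ ((r3 α _ g).2 h) ((r3 α _ g).2 h2)
      · intro x hx
        have h3 : g⁻¹ • g • x ∈ F i := hx.1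
        rwa [inv_smul_smul] at h3
      · intro x hx
        have h3 : g⁻¹ • g • x ∈ F i := hx.1
        rwa [inv_smul_smul] at h3
      · rw [Set.disjoint_left]
        intro x hx hx'
        exact hx'.2 hx.2
    · intro h2
      refine (hF j).2.2 (stat_g g (F i) ∩ F j) (F j \ stat_g g (F i)) Set.inter_subset_right
        Set.sdiff_subset ?_ h h2
      rw [Set.disjoint_left]
      intro x hx hx'
      exact hx'.2 hx.1
  have stepc : ∀ (j : Fin m) (g g' : G), X.Rge α (stat_g g (F i) ∩ F j) →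
      X.Rge α (stat_g g' (F i) ∩ F j) → ¬ X.Rge α (stat_sd (stat_g g (F i)) (stat_g g' (F i))) := by
    intro j g g' h h' hs
    obtain ⟨b1, b2⟩ := stepb j g h
    obtain ⟨b1', b2'⟩ := stepb j g' h'
    have d1 := X.diff ι _ (gd g) _ (hFd j)
    have d2 := X.diff ι _ (hFd j) _ (gd g)
    have d1' := X.diff ι _ (gd g') _ (hFd j)
    have d2' := X.diff ι _ (hFd j) _ (gd g')
    have e1 := X.union ι _ d1 _ d2'
    have e2 := X.union ι _ d1' _ d2
    have h1 := r1 α _ _ (X.union ι _ e1 _ e2) (by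
      intro x hx
      rcases hx with ⟨hx, hx'⟩ | ⟨hx, hx'⟩
      · by_cases hj : x ∈ F j
        · exact Or.inl (Or.inr ⟨hj, hx'⟩)
        · exact Or.inl (Or.inl ⟨hx, hj⟩)
      · by_cases hj : x ∈ F j
        · exact Or.inr (Or.inr ⟨hj, hx'⟩)
        · exact Or.inr (Or.inl ⟨hx, hj⟩)) hs
    rcases u1 _ _ e1 e2 h1 with h2 | h2
    · rcases u1 _ _ d1 d2' h2 with h3 | h3
      · exact b1 h3
      · exact b2' h3
    · rcases u1 _ _ d1' d2 h2 with h3 | h3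
      · exact b1' h3
      · exact b2 h3
  obtain ⟨n, E, u, hE, hEF⟩ := ov_param (X := X) (hFd i)
  obtain ⟨W, hW, huW⟩ := ov_sort (X := X) u
  rw [ov_empty_iff] at hE hW
  set P : Set (Fin n ⊕ ι → V) := {w | w ∘ Sum.inl ∈ W ∧ w ∘ Sum.inr ∈ F i} with hP
  have hPd : P ∈ X.Df (Fin n ⊕ ι) := X.prod (Fin n) ι W hW.1 (F i) (hFd i)
  set E' : Set (Fin n ⊕ ι → V) := (E \ P) ∪ (P \ E) with hE'
  have hE'd : E' ∈ X.Df (Fin n ⊕ ι) :=
    X.union _ _ (X.diff _ _ hE.1 _ hPd) _ (X.diff _ _ hPd _ hE.1)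
  have hPm : ∀ (z : Fin n → V) (x : ι → V), Sum.elim z x ∈ P ↔ z ∈ W ∧ x ∈ F i := by
    intro z x
    rw [hP]
    change (Sum.elim z x) ∘ Sum.inl ∈ W ∧ (Sum.elim z x) ∘ Sum.inr ∈ F i ↔ _
    rw [Sum.elim_comp_inl, Sum.elim_comp_inr]
  have hEm : ∀ (g : G) (z : Fin n → V) (x : ι → V), Sum.elim z (g • x) ∈ E ↔
      Sum.elim (g⁻¹ • z) x ∈ E := by
    intro g z x
    rw [← inv_iff hE.2 (Subgroup.mem_top g) (Sum.elim (g⁻¹ • z) x), smul_elim, smul_inv_smul]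
  set K : Set (Fin n → V) := W \ {z | X.Rge α (D0 ∩ {x | Sum.elim z x ∈ E'})} with hK
  have hKd : K ∈ X.Df (Fin n) :=
    X.diff _ _ hW.1 _ (hdef V G X (Fin n) ι α D0 E' h0.1 hn hE'd)
  have hsec : ∀ z : Fin n → V, {x : ι → V | Sum.elim z x ∈ E} ∈ X.Df ι :=
    fun z => X.sec (Fin n) ι E hE.1 z
  have hch : ∀ g ∈ Fx G A, ∀ z : Fin n → V, g⁻¹ • z ∈ K ↔ z ∈ W ∧
      ¬ X.Rge α (D0 ∩ stat_sd {x | Sum.elim z x ∈ E} (stat_g g (F i))) := by
    intro g hg z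
    have hWz : g⁻¹ • z ∈ W ↔ z ∈ W := inv_iff hW.2 (Subgroup.mem_top _) z
    by_cases hz : z ∈ W
    · have h1 : D0 ∩ {x | Sum.elim (g⁻¹ • z) x ∈ E'} =
          {x | g • x ∈ D0 ∩ stat_sd {x | Sum.elim z x ∈ E} (stat_g g (F i))} := by
        ext x
        have q1 : g • x ∈ D0 ↔ x ∈ D0 := inv_iff h0.2 hg x
        have q2 : g • x ∈ {x : ι → V | Sum.elim z x ∈ E} ↔ Sum.elim (g⁻¹ • z) x ∈ E :=
          hEm g z x
        have q3 : g • x ∈ stat_g g (F i) ↔ x ∈ F i := by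
          change g⁻¹ • g • x ∈ F i ↔ _
          rw [inv_smul_smul]
        have q4 : Sum.elim (g⁻¹ • z) x ∈ P ↔ x ∈ F i := by
          rw [hPm, hWz]
          exact ⟨fun h => h.2, fun h => ⟨hz, h⟩⟩
        have q5 : Sum.elim (g⁻¹ • z) x ∈ E' ↔ (Sum.elim (g⁻¹ • z) x ∈ E ∧ ¬ x ∈ F i) ∨
            (x ∈ F i ∧ ¬ Sum.elim (g⁻¹ • z) x ∈ E) := by
          rw [← q4]
          exact Iff.rfl
        have q6 : g • x ∈ stat_sd {x | Sum.elim z x ∈ E} (stat_g g (F i)) ↔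
            (Sum.elim (g⁻¹ • z) x ∈ E ∧ ¬ x ∈ F i) ∨
            (x ∈ F i ∧ ¬ Sum.elim (g⁻¹ • z) x ∈ E) := by
          rw [← q2, ← q3]
          exact Iff.rfl
        change x ∈ D0 ∧ Sum.elim (g⁻¹ • z) x ∈ E' ↔
          g • x ∈ D0 ∧ g • x ∈ stat_sd {x | Sum.elim z x ∈ E} (stat_g g (F i))
        rw [q1, q5, q6]
      have h2 : g⁻¹ • z ∈ K ↔ g⁻¹ • z ∈ W ∧
          ¬ X.Rge α (D0 ∩ {x | Sum.elim (g⁻¹ • z) x ∈ E'}) := Iff.rfl
      rw [h2, h1, r3, hWz]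
    · constructor
      · intro h
        exact absurd (hWz.1 h.1) hz
      · intro h
        exact absurd h.1 hz
  have hf : ∀ g ∈ Fx G A, ∀ g' ∈ Fx G A,
      ¬ X.Rge α (stat_sd (stat_g g (F i)) (stat_g g' (F i))) →
      ∀ z : Fin n → V, g⁻¹ • z ∈ K → g'⁻¹ • z ∈ K := by
    intro g hg g' hg' hs z hz
    rw [hch g hg] at hz
    rw [hch g' hg']
    refine ⟨hz.1, fun hr => ?_⟩
    have d1 : D0 ∩ stat_sd {x | Sum.elim z x ∈ E} (stat_g g (F i)) ∈ X.Df ι :=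
      stat_inter X h0.1 (stat_sd_df X (hsec z) (gd g))
    have d2 := stat_sd_df X (gd g) (gd g')
    have h1 := r1 α _ _ (X.union ι _ d1 _ d2) (by
      rintro x ⟨hx0, hx⟩
      by_cases hxg : x ∈ stat_g g (F i)
      · by_cases hxg' : x ∈ stat_g g' (F i)
        · rcases hx with ⟨hx, hx'⟩ | ⟨hx, hx'⟩
          · exact absurd hxg' hx'
          · exact Or.inl ⟨hx0, Or.inr ⟨hxg, hx'⟩⟩
        · exact Or.inr (Or.inl ⟨hxg, hxg'⟩)
      · by_cases hxg' : x ∈ stat_g g' (F i)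
        · exact Or.inr (Or.inr ⟨hxg', hxg⟩)
        · rcases hx with ⟨hx, hx'⟩ | ⟨hx, hx'⟩
          · exact Or.inl ⟨hx0, Or.inl ⟨hx, hxg⟩⟩
          · exact absurd hx hxg') hr
    rcases u1 _ _ d1 d2 h1 with h2 | h2
    · exact hz.2 h2
    · exact hs h2
  obtain ⟨k, e, he⟩ := X.code (Fin n) K hKd
  have hsame : ∀ (j : Fin m), ∀ g ∈ Fx G A, ∀ g' ∈ Fx G A, X.Rge α (stat_g g (F i) ∩ F j) →
      X.Rge α (stat_g g' (F i) ∩ F j) → g • e = g' • e := by
    intro j g hg g' hg' h h'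
    have hs := stepc j g g' h h'
    have hs' := stepc j g' g h' h
    have h1 : (g'⁻¹ * g) • e = e := by
      rw [← he]
      intro x
      rw [mul_smul]
      constructor
      · intro hx
        have := hf g' hg' g hg hs' (g • x) hx
        rwa [inv_smul_smul] at this
      · intro hx
        refine hf g hg g' hg' hs (g • x) ?_
        rwa [inv_smul_smul]
    rw [mul_smul, inv_smul_eq_iff] at h1
    exact h1
  have horb : {e' : Fin k → V | ∃ g ∈ Fx G A, g • e = e'}.Finite := by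
    refine Set.Finite.subset (s := ⋃ j : Fin m, {e' : Fin k → V | ∃ g ∈ Fx G A,
      X.Rge α (stat_g g (F i) ∩ F j) ∧ g • e = e'}) ?_ ?_
    · refine Set.finite_iUnion fun j => Set.Subsingleton.finite ?_
      rintro _ ⟨g, hg, h, rfl⟩ _ ⟨g', hg', h', rfl⟩
      exact hsame j g hg g' hg' h h'
    · rintro _ ⟨g, hg, rfl⟩
      obtain ⟨j, hj⟩ := stepa g hg
      exact Set.mem_iUnion.2 ⟨j, g, hg, hj, rfl⟩
  refine ⟨k, e, n, u, ?_, ?_, ?_⟩
  · rintro _ ⟨l, rfl⟩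
    change {e' | ∃ g ∈ Fx G A, g • e l = e'}.Finite
    refine (horb.image (fun f => f l)).subset ?_
    rintro _ ⟨g, hg, rfl⟩
    exact ⟨g • e, ⟨g, hg, rfl⟩, rfl⟩
  · rw [hEF]
    have h1 := ov_sec (X := X) ((ov_empty_iff X).2 hE) u
    rwa [Set.empty_union] at h1
  · intro g hg hge hr
    have huK : u ∈ K := by
      refine ⟨huW, fun hr' => ?_⟩
      have h1 : D0 ∩ {x : ι → V | Sum.elim u x ∈ E'} = ∅ := by
        rw [Set.eq_empty_iff_forall_notMem]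
        rintro x ⟨-, hx⟩
        have q1 : Sum.elim u x ∈ P ↔ Sum.elim u x ∈ E := by
          rw [hPm, hEF]
          exact ⟨fun h => h.2, fun h => ⟨huW, h⟩⟩
        rcases hx with ⟨h2, h3⟩ | ⟨h2, h3⟩
        · exact h3 (q1.2 h2)
        · exact h3 (q1.1 h2)
      rw [Set.mem_ofPred_eq, h1] at hr'
      exact stat_rge_empty X α hr'
    have hgK : g • u ∈ K := ((he g).2 hge u).2 huK
    refine hgK.2 ?_
    refine r1 α _ _ (stat_inter X h0.1 (X.sec (Fin n) ι E' hE'd (g • u))) ?_ hr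
    rintro x ⟨hx, hx'⟩
    refine ⟨gD g hg hx, Or.inl ⟨?_, ?_⟩⟩
    · have h2 : Sum.elim u (g⁻¹ • x) ∈ E := by
        have h3 : g⁻¹ • x ∈ F i := hx
        rw [hEF] at h3
        exact h3
      have h4 := (inv_iff hE.2 (Subgroup.mem_top g) (Sum.elim u (g⁻¹ • x))).2 h2
      rwa [smul_elim, smul_inv_smul] at h4
    · rw [hPm]
      exact fun h => hx' h.2

end

theorem st_STAT (hrkb : ST_RKB) (hrdeg : ST_RDEG) (hbas : ST_RBAS) (hrun : ST_RUN)
    (hdef : ST_DEF) (hgen : ST_GEN) (hunid : ST_UNID) (haclb : ST_ACLB) (hexts : ST_EXTS)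
    (hcalc : ST_CALC) : ST_STAT := by
  intro V G _ _ X A hA ι _ b
  obtain ⟨k1, k2, k3, k4, k5, k6⟩ := hrkb V G X ι b
  obtain ⟨r1, -, r3, -, -⟩ := hbas V G X ι
  set α := X.rk A b with hα
  obtain ⟨u1, u2⟩ := hrun V G X ι α
  obtain ⟨D0, h0, hb0, hr0⟩ := k1 A
  have hR0 : X.Rge α D0 := (hr0 α).2 le_rfl
  have hn0 : ¬ X.Rge (Order.succ α) D0 := by
    rw [hr0]
    exact not_le.2 (Order.lt_succ α)
  obtain ⟨m, F, -, hF, hU, hdis, -⟩ := hrdeg V G X ι α D0 hR0 hn0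
  choose k e n u hea hFu hfix using
    stat_key hbas hrun hdef X A α D0 h0 hn0 m F hF hU
  have hFd : ∀ j, F j ∈ X.Df ι := fun j => ((rge_iff X α _).1 (hF j).1).1
  have hFD : ∀ j, F j ⊆ D0 := fun j => by rw [hU]; exact Set.subset_iUnion F j
  obtain ⟨a1, a2, a3, a4, a5, a6, a7⟩ := haclb V G X A hA
  set e0 : Set V := ⋃ i, Set.range (e i) with he0
  have he0f : e0.Finite := Set.finite_iUnion fun i => Set.finite_range _
  have he0a : e0 ⊆ acl G A := Set.iUnion_subset hea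
  refine ⟨e0, he0a, he0f, ?_⟩
  have hrk : X.rk (A ∪ e0) b = α := a6 e0 ι b he0a
  have hAc : (A ∪ e0).Countable := hA.union he0f.countable
  obtain ⟨D', hD', hbD', hrD', huD'⟩ := hunid V G X (A ∪ e0) hAc ι b
  rw [hrk] at hrD' huD'
  have h0' : X.Ov (A ∪ e0) D0 := ov_mono X Set.subset_union_left h0
  have hD : X.Ov (A ∪ e0) (D' ∩ D0) := ov_inter hD' h0'
  have hnD' : ¬ X.Rge (Order.succ α) D' := by
    rw [hrD']
    exact not_le.2 (Order.lt_succ α)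
  have hRD : X.Rge α (D' ∩ D0) := by
    have := k3 (A ∪ e0) (D' ∩ D0) hD ⟨hbD', hb0⟩
    rwa [hrk] at this
  have hnD : ¬ X.Rge (Order.succ α) (D' ∩ D0) :=
    fun h => hnD' (r1 _ _ _ hD'.1 Set.inter_subset_left h)
  refine ⟨D' ∩ D0, hD, ⟨hbD', hb0⟩, ?_⟩
  rw [hrk]
  refine ⟨hRD, hnD, ?_⟩
  intro S T hS hT hST hRS hRT
  have hSd : S ∈ X.Df ι := ((rge_iff X α _).1 hRS).1
  have hTd : T ∈ X.Df ι := ((rge_iff X α _).1 hRT).1
  -- decomposition
  have hdec : ∀ S : Set (ι → V), S ⊆ D' ∩ D0 → S ∈ X.Df ι → X.Rge α S →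
      ∃ i, X.Rge α (S ∩ F i) := by
    intro S hS hSd hRS
    refine u2 (Fin m) (fun j => S ∩ F j) (fun j => stat_inter X hSd (hFd j)) ?_
    have h1 : (⋃ j, S ∩ F j) = S := by
      rw [← Set.inter_iUnion, ← hU]
      exact Set.inter_eq_left.2 (fun x hx => (hS hx).2)
    rwa [h1]
  obtain ⟨i, hi⟩ := hdec S hS hSd hRS
  obtain ⟨j, hj⟩ := hdec T hT hTd hRT
  have hij : i ≠ j := by
    rintro rfl
    refine (hF i).2.2 (S ∩ F i) (T ∩ F i) Set.inter_subset_right Set.inter_subset_right ?_ hi hj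
    exact hST.mono Set.inter_subset_left Set.inter_subset_left
  have hDi : X.Rge α ((D' ∩ D0) ∩ F i) :=
    r1 _ _ _ (stat_inter X hD.1 (hFd i)) (Set.inter_subset_inter_left _ hS) hi
  have hDj : X.Rge α ((D' ∩ D0) ∩ F j) :=
    r1 _ _ _ (stat_inter X hD.1 (hFd j)) (Set.inter_subset_inter_left _ hT) hj
  set C : Set V := (A ∪ e0) ∪ ⋃ l, Set.range (u l) with hC
  have hCc : C.Countable :=
    hAc.union (Set.finite_iUnion fun l => Set.finite_range _).countable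
  have hAC : A ∪ e0 ⊆ C := Set.subset_union_left
  have huC : ∀ l, Set.range (u l) ⊆ C := fun l =>
    (Set.subset_iUnion (fun l => Set.range (u l)) l).trans Set.subset_union_right
  have hFC : ∀ l, X.Ov C (F l) := fun l => ov_mono X (huC l) (hFu l)
  have hDC : X.Ov C (D' ∩ D0) := ov_mono X hAC hD
  have hgenp : ∀ l, X.Rge α ((D' ∩ D0) ∩ F l) → ∃ x ∈ (D' ∩ D0) ∩ F l, X.rk C x = α := by
    intro l hl
    exact hgen V G X C hCc ι α _ (ov_inter hDC (hFC l)) hl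
      (fun h => hnD (r1 _ _ _ hD.1 Set.inter_subset_left h))
  obtain ⟨b1, hb1, hrb1⟩ := hgenp i hDi
  obtain ⟨b2, hb2, hrb2⟩ := hgenp j hDj
  have hrkA' : ∀ b' ∈ D' ∩ D0, X.rk C b' = α → X.rk (A ∪ e0) b' = α := by
    intro b' hb' hr'
    obtain ⟨q1, q2, q3, q4, q5, q6⟩ := hrkb V G X ι b'
    refine le_antisymm (q2 _ _ _ hD' hb'.1 hnD') ?_
    rw [← hr']
    exact q4 _ _ hAC
  have hrA1 := hrkA' b1 hb1.1 hrb1
  have hrA2 := hrkA' b2 hb2.1 hrb2
  obtain ⟨g0, hg0, hg01⟩ := eqv_trans (eqv_symm (huD' b1 hb1.1.1 hrA1)) (huD' b2 hb2.1.1 hrA2)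
  have hb2c : (Set.range b2).Countable := (Set.finite_range b2).countable
  have htrc : ∀ g : G, (tr g C).Countable := fun g => hCc.image _
  obtain ⟨h, hh, hSI⟩ := hexts V G X ((A ∪ e0) ∪ Set.range b2) (tr g0 C) C
    (hAc.union hb2c) (htrc g0) hCc
  obtain ⟨hh1, hh2⟩ := fx_union.1 hh
  set g : G := h * g0 with hg
  have hgA : g ∈ Fx G (A ∪ e0) := mul_mem hh1 hg0
  have hgb : g • b1 = b2 := by
    rw [hg, mul_smul, hg01]
    exact fx_range.1 hh2
  have htr : tr h (tr g0 C) = tr g C := by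
    ext x
    rw [mem_tr, mem_tr, mem_tr, hg, mul_inv_rev, mul_smul]
  rw [htr] at hSI
  have s1 : SI X (A ∪ e0) (Set.range b2) C := by
    have c5 := (hcalc V G X (A ∪ e0) ∅ C ∅ hAc Set.countable_empty hCc
      Set.countable_empty).2.2.2.2.1 ι b2
    rw [← c5, Set.union_eq_self_of_subset_left hAC, hrb2, hrA2]
  have s2 : SI X (A ∪ e0) (Set.range b2 ∪ tr g C) C :=
    ((hcalc V G X (A ∪ e0) (Set.range b2) C (tr g C) hAc hb2c hCc (htrc g)).2.2.1).2 ⟨s1, hSI⟩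
  rw [Set.union_comm (Set.range b2)] at s2
  have s3 : SI X ((A ∪ e0) ∪ tr g C) (Set.range b2) C :=
    (((hcalc V G X (A ∪ e0) (tr g C) C (Set.range b2) hAc (htrc g) hCc hb2c).2.2.1).1 s2).2
  have hAtr : A ∪ e0 ⊆ tr g C := by
    rw [← tr_fx hgA]
    exact Set.image_mono hAC
  rw [Set.union_eq_self_of_subset_left hAtr] at s3
  have s4 : X.rk (tr g C ∪ C) b2 = α := by
    have c5 := (hcalc V G X (tr g C) ∅ C ∅ (htrc g) Set.countable_empty hCc
      Set.countable_empty).2.2.2.2.1 ι b2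
    rw [c5.2 s3, ← hgb, (hrkb V G X ι b1).2.2.2.2.1 C g, hrb1]
  -- the big intersection
  have hov : X.Ov (tr g C ∪ C) (stat_g g (F i) ∩ F j) := by
    refine ov_inter (ov_mono X Set.subset_union_left ?_) (ov_mono X Set.subset_union_right (hFC j))
    have h1 := ov_smul (hFC i) g⁻¹
    rw [inv_inv] at h1
    exact h1
  have hmem : b2 ∈ stat_g g (F i) ∩ F j := by
    refine ⟨?_, hb2.2⟩
    change g⁻¹ • b2 ∈ F i
    rw [← hgb, inv_smul_smul]
    exact hb1.2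
  have hbig : X.Rge α (stat_g g (F i) ∩ F j) := by
    have h1 := (hrkb V G X ι b2).2.2.1 _ _ hov hmem
    rwa [s4] at h1
  have hge : g • e i = e i := by
    refine fx_range.1 (fx_anti ?_ hgA)
    exact (Set.subset_iUnion (fun i => Set.range (e i)) i).trans Set.subset_union_right
  refine hfix i g (fx_anti Set.subset_union_left hgA) hge ?_
  refine r1 _ _ _ (X.diff ι _ (X.smul ι (F i) (hFd i) g⁻¹) _ (hFd i)) ?_ hbig
  rintro x ⟨hx1, hx2⟩
  refine ⟨hx1, fun hx3 => ?_⟩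
  exact (Set.disjoint_left.1 (hdis i j hij)) hx3 hx2

end Pool.Agent.Helper90.TS
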